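import Pool.Agent.Lib.MP_a7e1fe_lc.Lower

/-!
# `PK ≡_W lim * PK_{ℕ^ℕ}`

We prove that `PK` has the Weihrauch degree of the compositional product `lim * PK_{ℕ^ℕ}`: every
composition `f ∘ g` with `f ≤_W lim` and `g ≤_W PK_{ℕ^ℕ}` is Weihrauch reducible to `PK`, and `PK` is
Weihrauch reducible to such a composition.
-/

namespace Pool.Agent.Results.MP_a7e1fe_lc.PKEqLimStar

open Pool.Agent.Lib.MP_a7e1fe_lc

/-- **Main theorem.** `PK` is, up to Weihrauch equivalence, the maximum of all compositions `f ∘ g`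
of a problem `f ≤_W lim` with a problem `g ≤_W PK_{ℕ^ℕ}`, that is, `PK ≡_W lim * PK_{ℕ^ℕ}`. -/
theorem result :
    (∀ (X Y Z : RepSpace) (g : Problem X Y) (f : Problem Y Z),
      WLe g PKClosed → WLe f limP → WLe (f.comp g) PK) ∧
    (∃ (X Y Z : RepSpace) (g : Problem X Y) (f : Problem Y Z),
      WLe g PKClosed ∧ WLe f limP ∧ WLe PK (f.comp g)) :=
  ⟨fun _ _ _ g f hg hf => comp_le_PK f g hg hf, _, _, _, gP, fP, gP_le, fP_le, PK_le_comp⟩

end Pool.Agent.Results.MP_a7e1fe_lc.PKEqLimStar
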